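import Pool.Agent.W594.SYZ.TQ4

/-!
# A quotient of a complex torus of dimension four by the dihedral group of order eight
-/

set_option autoImplicit false

namespace Q276.SYZ

open Pool.Agent.W594.SYZ2 Matrix

/-- The vector space `ℂ² ⊕ ℂ²`: the coordinates of `v` are `v j i`, `j` the number of the summand. -/
abbrev V := Fin 2 → Fin 2 → ℂ

/-- `z` is a Gaussian integer. -/
def IsGauss (z : ℂ) : Prop := ∃ m n : ℤ, z = m + n * Complex.I

theorem isGauss_zero : IsGauss 0 := ⟨0, 0, by simp⟩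

theorem isGauss_one : IsGauss 1 := ⟨1, 0, by simp⟩

theorem IsGauss.add {z w : ℂ} (hz : IsGauss z) (hw : IsGauss w) : IsGauss (z + w) := by
  obtain ⟨m, n, rfl⟩ := hz
  obtain ⟨m', n', rfl⟩ := hw
  exact ⟨m + m', n + n', by push_cast; ring⟩

theorem IsGauss.neg {z : ℂ} (hz : IsGauss z) : IsGauss (-z) := by
  obtain ⟨m, n, rfl⟩ := hz
  exact ⟨-m, -n, by push_cast; ring⟩

theorem IsGauss.intMul {z : ℂ} (k : ℤ) (hz : IsGauss z) : IsGauss (k * z) := by
  obtain ⟨m, n, rfl⟩ := hz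
  exact ⟨k * m, k * n, by push_cast; ring⟩

/-- The lattice `Λ`: all coordinates are Gaussian integers, and the two coordinates in the second
summand are congruent modulo `2`. -/
def Lam : AddSubgroup V where
  carrier := {v | (∀ j i, IsGauss (v j i)) ∧ ∃ z, IsGauss z ∧ v 1 0 - v 1 1 = 2 * z}
  zero_mem' := ⟨fun _ _ => isGauss_zero, 0, isGauss_zero, by simp⟩
  add_mem' := by
    rintro v w ⟨hv, z, hz, hz'⟩ ⟨hw, y, hy, hy'⟩
    refine ⟨fun j i => (hv j i).add (hw j i), z + y, hz.add hy, ?_⟩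
    simp only [Pi.add_apply]
    linear_combination hz' + hy'
  neg_mem' := by
    rintro v ⟨hv, z, hz, hz'⟩
    refine ⟨fun j i => (hv j i).neg, -z, hz.neg, ?_⟩
    simp only [Pi.neg_apply]
    linear_combination -hz'

theorem mem_Lam {v : V} : v ∈ Lam ↔
    (∀ j i, IsGauss (v j i)) ∧ ∃ z, IsGauss z ∧ v 1 0 - v 1 1 = 2 * z := Iff.rfl

/-- The action of an integral `2 × 2` matrix on `ℂ² ⊕ ℂ²`. -/
def act (A : Matrix (Fin 2) (Fin 2) ℤ) : V →ₗ[ℂ] V where
  toFun v := fun j i => (A i 0 : ℂ) * v j 0 + (A i 1 : ℂ) * v j 1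
  map_add' v w := by
    funext j i
    simp only [Pi.add_apply]
    ring
  map_smul' c v := by
    funext j i
    simp only [Pi.smul_apply, smul_eq_mul, RingHom.id_apply]
    ring

theorem act_apply (A : Matrix (Fin 2) (Fin 2) ℤ) (v : V) (j i : Fin 2) :
    act A v j i = (A i 0 : ℂ) * v j 0 + (A i 1 : ℂ) * v j 1 := rfl

theorem act_mul (A B : Matrix (Fin 2) (Fin 2) ℤ) (v : V) : act (A * B) v = act A (act B v) := by
  funext j i
  simp only [act_apply, Matrix.mul_apply, Fin.sum_univ_two]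
  push_cast
  ring

theorem act_one (v : V) : act 1 v = v := by
  funext j i
  fin_cases i
  · simp [act_apply, Matrix.one_apply]
  · simp [act_apply, Matrix.one_apply]

/-- The translation vector `t`. -/
noncomputable def t : V := ![![1 / 2, 1 / 2], ![1, 0]]

/-- The translation part of the element with linear part `A`. -/
noncomputable def tau (A : Matrix (Fin 2) (Fin 2) ℤ) : V := if A.det = 1 then 0 else t

theorem orth_cases {A : Matrix (Fin 2) (Fin 2) ℤ} (h : A * A.transpose = 1) :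
    ∃ e f : ℤ, (e = 1 ∨ e = -1) ∧ (f = 1 ∨ f = -1) ∧ (A = !![e, 0; 0, f] ∨ A = !![0, e; f, 0]) := by
  have h00 : A 0 0 * A 0 0 + A 0 1 * A 0 1 = 1 := by
    have := congrFun (congrFun h 0) 0
    simpa [Matrix.mul_apply, Fin.sum_univ_two] using this
  have h01 : A 0 0 * A 1 0 + A 0 1 * A 1 1 = 0 := by
    have := congrFun (congrFun h 0) 1
    simpa [Matrix.mul_apply, Fin.sum_univ_two] using this
  have h11 : A 1 0 * A 1 0 + A 1 1 * A 1 1 = 1 := by
    have := congrFun (congrFun h 1) 1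
    simpa [Matrix.mul_apply, Fin.sum_univ_two] using this
  have hA : A = !![A 0 0, A 0 1; A 1 0, A 1 1] := Matrix.eta_fin_two A
  have bound : ∀ x y : ℤ, x * x + y * y = 1 → (x = 0 ∧ (y = 1 ∨ y = -1)) ∨
      (y = 0 ∧ (x = 1 ∨ x = -1)) := by
    intro x y hxy
    have hx1 : x ≤ 1 := by nlinarith
    have hx2 : -1 ≤ x := by nlinarith
    have hy1 : y ≤ 1 := by nlinarith
    have hy2 : -1 ≤ y := by nlinarith
    interval_cases x <;> interval_cases y <;> revert hxy <;> decide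
  rcases bound _ _ h00 with ⟨ha, hb⟩ | ⟨hb, ha⟩
  · have hd : A 1 1 = 0 := by
      rw [ha, zero_mul, zero_add] at h01
      rcases hb with hb | hb <;> rw [hb] at h01 <;> linarith
    rcases bound _ _ h11 with ⟨hc, hd'⟩ | ⟨_, hc⟩
    · rw [hd] at hd'
      rcases hd' with h | h <;> norm_num at h
    · exact ⟨A 0 1, A 1 0, hb, hc, Or.inr (by rw [hA]; simp [ha, hd])⟩
  · have hc : A 1 0 = 0 := by
      rw [hb, zero_mul, add_zero] at h01
      rcases ha with ha | ha <;> rw [ha] at h01 <;> linarith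
    rcases bound _ _ h11 with ⟨_, hd⟩ | ⟨hd, hc'⟩
    · exact ⟨A 0 0, A 1 1, ha, hd, Or.inl (by rw [hA]; simp [hb, hc])⟩
    · rw [hc] at hc'
      rcases hc' with h | h <;> norm_num at h

theorem orth_transpose {A : Matrix (Fin 2) (Fin 2) ℤ} (h : A * A.transpose = 1) :
    A.transpose * A = 1 := mul_eq_one_comm.1 h

theorem orth_mul {A B : Matrix (Fin 2) (Fin 2) ℤ} (hA : A * A.transpose = 1)
    (hB : B * B.transpose = 1) : (A * B) * (A * B).transpose = 1 := by
  rw [Matrix.transpose_mul, Matrix.mul_assoc, ← Matrix.mul_assoc B, hB, Matrix.one_mul, hA]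

theorem det_cases {A : Matrix (Fin 2) (Fin 2) ℤ} (h : A * A.transpose = 1) :
    A.det = 1 ∨ A.det = -1 := by
  obtain ⟨e, f, he, hf, hA | hA⟩ := orth_cases h <;>
    rcases he with rfl | rfl <;> rcases hf with rfl | rfl <;> simp [hA, Matrix.det_fin_two]

theorem act_Lam {A : Matrix (Fin 2) (Fin 2) ℤ} (h : A * A.transpose = 1) {v : V} (hv : v ∈ Lam) :
    act A v ∈ Lam := by
  obtain ⟨hg, z, hz, hz'⟩ := hv
  refine ⟨fun j i => ((hg j 0).intMul _).add ((hg j 1).intMul _), ?_⟩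
  obtain ⟨e, f, he, hf, hA | hA⟩ := orth_cases h
  · rcases he with rfl | rfl <;> rcases hf with rfl | rfl
    · exact ⟨z, hz, by simp [act_apply, hA]; linear_combination hz'⟩
    · exact ⟨z + v 1 1, hz.add (hg 1 1), by simp [act_apply, hA]; linear_combination hz'⟩
    · exact ⟨-z + -v 1 1, hz.neg.add (hg 1 1).neg, by
        simp [act_apply, hA]; linear_combination -hz'⟩
    · exact ⟨-z, hz.neg, by simp [act_apply, hA]; linear_combination -hz'⟩
  · rcases he with rfl | rfl <;> rcases hf with rfl | rfl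
    · exact ⟨-z, hz.neg, by simp [act_apply, hA]; linear_combination -hz'⟩
    · exact ⟨z + v 1 1, hz.add (hg 1 1), by simp [act_apply, hA]; linear_combination hz'⟩
    · exact ⟨-z + -v 1 1, hz.neg.add (hg 1 1).neg, by
        simp [act_apply, hA]; linear_combination -hz'⟩
    · exact ⟨z, hz, by simp [act_apply, hA]; linear_combination hz'⟩

theorem two_t : t + t ∈ Lam := by
  refine ⟨?_, 1, isGauss_one, ?_⟩
  · intro j i
    fin_cases j <;> fin_cases i
    · exact ⟨1, 0, by simp [t]; norm_num⟩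
    · exact ⟨1, 0, by simp [t]; norm_num⟩
    · exact ⟨2, 0, by simp [t]; norm_num⟩
    · exact ⟨0, 0, by simp [t]⟩
  · simp [t]; norm_num

theorem orth_odd {A : Matrix (Fin 2) (Fin 2) ℤ} (h : A * A.transpose = 1) :
    (∃ k : ℤ, A 0 0 + A 0 1 = 2 * k + 1) ∧ (∃ k : ℤ, A 1 0 + A 1 1 = 2 * k + 1) ∧
      (∃ k : ℤ, A 0 0 - A 1 0 = 2 * k + 1) := by
  obtain ⟨e, f, he, hf, hA | hA⟩ := orth_cases h
  · have h1 : A 0 0 = e := by simp [hA]
    have h2 : A 0 1 = 0 := by simp [hA]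
    have h3 : A 1 0 = 0 := by simp [hA]
    have h4 : A 1 1 = f := by simp [hA]
    rw [h1, h2, h3, h4]
    refine ⟨⟨(e - 1) / 2, ?_⟩, ⟨(f - 1) / 2, ?_⟩, ⟨(e - 1) / 2, ?_⟩⟩ <;> omega
  · have h1 : A 0 0 = 0 := by simp [hA]
    have h2 : A 0 1 = e := by simp [hA]
    have h3 : A 1 0 = f := by simp [hA]
    have h4 : A 1 1 = 0 := by simp [hA]
    rw [h1, h2, h3, h4]
    refine ⟨⟨(e - 1) / 2, ?_⟩, ⟨(f - 1) / 2, ?_⟩, ⟨(-f - 1) / 2, ?_⟩⟩ <;> omega

theorem isGauss_int (n : ℤ) : IsGauss (n : ℂ) := ⟨n, 0, by simp⟩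

theorem act_t {A : Matrix (Fin 2) (Fin 2) ℤ} (h : A * A.transpose = 1) : act A t - t ∈ Lam := by
  obtain ⟨⟨k, hk⟩, ⟨l, hl⟩, ⟨m, hm⟩⟩ := orth_odd h
  have hk' : (A 0 0 : ℂ) + A 0 1 = 2 * k + 1 := by exact_mod_cast hk
  have hl' : (A 1 0 : ℂ) + A 1 1 = 2 * l + 1 := by exact_mod_cast hl
  have hm' : (A 0 0 : ℂ) - A 1 0 = 2 * m + 1 := by exact_mod_cast hm
  have t00 : t 0 0 = 1 / 2 := rfl
  have t01 : t 0 1 = 1 / 2 := rfl
  have t10 : t 1 0 = 1 := rfl
  have t11 : t 1 1 = 0 := rfl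
  have c00 : (act A t - t) 0 0 = (k : ℤ) := by
    simp only [Pi.sub_apply, act_apply, t00, t01]
    linear_combination (1 / 2 : ℂ) * hk'
  have c01 : (act A t - t) 0 1 = (l : ℤ) := by
    simp only [Pi.sub_apply, act_apply, t00, t01]
    linear_combination (1 / 2 : ℂ) * hl'
  have c10 : (act A t - t) 1 0 = ((A 0 0 - 1 : ℤ) : ℂ) := by
    simp only [Pi.sub_apply, act_apply, t10, t11]
    push_cast
    ring
  have c11 : (act A t - t) 1 1 = ((A 1 0 : ℤ) : ℂ) := by
    simp only [Pi.sub_apply, act_apply, t10, t11]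
    ring
  refine ⟨?_, m, isGauss_int m, ?_⟩
  · intro j i
    fin_cases j <;> fin_cases i
    · exact c00 ▸ isGauss_int k
    · exact c01 ▸ isGauss_int l
    · exact c10 ▸ isGauss_int _
    · exact c11 ▸ isGauss_int _
  · rw [c10, c11]
    push_cast
    linear_combination hm'

theorem tau_of_one {A : Matrix (Fin 2) (Fin 2) ℤ} (h : A.det = 1) : tau A = 0 := if_pos h

theorem tau_of_neg {A : Matrix (Fin 2) (Fin 2) ℤ} (h : A.det = -1) : tau A = t :=
  if_neg (by rw [h]; decide)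

theorem tau_mul {A B : Matrix (Fin 2) (Fin 2) ℤ} (hA : A * A.transpose = 1)
    (hB : B * B.transpose = 1) : act A (tau B) + tau A - tau (A * B) ∈ Lam := by
  rcases det_cases hA with h1 | h1 <;> rcases det_cases hB with h2 | h2
  · rw [tau_of_one h1, tau_of_one h2, tau_of_one (by rw [Matrix.det_mul, h1, h2]; rfl), map_zero,
      add_zero, sub_zero]
    exact Lam.zero_mem
  · rw [tau_of_one h1, tau_of_neg h2, tau_of_neg (by rw [Matrix.det_mul, h1, h2]; rfl), add_zero]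
    exact act_t hA
  · rw [tau_of_neg h1, tau_of_one h2, tau_of_neg (by rw [Matrix.det_mul, h1, h2]; rfl), map_zero,
      zero_add, sub_self]
    exact Lam.zero_mem
  · rw [tau_of_neg h1, tau_of_neg h2, tau_of_one (by rw [Matrix.det_mul, h1, h2]; rfl), sub_zero]
    have := Lam.add_mem (act_t hA) two_t
    convert this using 1
    abel

/-- `γ` is the transformation `v ↦ A v + τ_A + b`, `b ∈ Λ`. -/
def IsOf (γ : V ≃ᵃ[ℂ] V) (A : Matrix (Fin 2) (Fin 2) ℤ) : Prop :=
  A * A.transpose = 1 ∧ ∃ b ∈ Lam, ∀ v, γ v = act A v + tau A + b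

theorem IsOf.mul {γ δ : V ≃ᵃ[ℂ] V} {A B : Matrix (Fin 2) (Fin 2) ℤ} (h : IsOf γ A)
    (h' : IsOf δ B) : IsOf (γ * δ) (A * B) := by
  obtain ⟨hA, b, hb, hγ⟩ := h
  obtain ⟨hB, c, hc, hδ⟩ := h'
  refine ⟨orth_mul hA hB, (act A (tau B) + tau A - tau (A * B)) + act A c + b,
    Lam.add_mem (Lam.add_mem (tau_mul hA hB) (act_Lam hA hc)) hb, fun v => ?_⟩
  change γ (δ v) = _
  rw [hγ, hδ, act_mul, map_add, map_add]
  abel

theorem IsOf.inv {γ : V ≃ᵃ[ℂ] V} {A : Matrix (Fin 2) (Fin 2) ℤ} (h : IsOf γ A) :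
    IsOf γ⁻¹ A.transpose := by
  obtain ⟨hA, b, hb, hγ⟩ := h
  have hA' : A.transpose * A.transpose.transpose = 1 := by
    rw [Matrix.transpose_transpose]
    exact orth_transpose hA
  have h1 : tau (A.transpose * A) = 0 := by
    rw [orth_transpose hA]
    exact tau_of_one Matrix.det_one
  have h2 := tau_mul hA' hA
  rw [h1, sub_zero] at h2
  refine ⟨hA', -(act A.transpose (tau A) + tau A.transpose) + -act A.transpose b,
    Lam.add_mem (Lam.neg_mem h2) (Lam.neg_mem (act_Lam hA' hb)), fun v => ?_⟩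
  have h3 : v = act A (γ⁻¹ v) + tau A + b := by
    rw [← hγ]
    exact (γ.apply_symm_apply v).symm
  have h4 : act A.transpose v = γ⁻¹ v + act A.transpose (tau A) + act A.transpose b := by
    conv_lhs => rw [h3]
    rw [map_add, map_add, ← act_mul, orth_transpose hA, act_one]
  rw [h4]
  abel

theorem isOf_one : IsOf 1 1 :=
  ⟨by simp, 0, Lam.zero_mem, fun v => by
    rw [act_one, tau_of_one Matrix.det_one, add_zero, add_zero]
    rfl⟩

/-- The group `Γ`. -/
def Gam : Subgroup (V ≃ᵃ[ℂ] V) where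
  carrier := {γ | ∃ A, IsOf γ A}
  mul_mem' := by
    rintro γ δ ⟨A, hA⟩ ⟨B, hB⟩
    exact ⟨_, hA.mul hB⟩
  one_mem' := ⟨_, isOf_one⟩
  inv_mem' := by
    rintro γ ⟨A, hA⟩
    exact ⟨_, hA.inv⟩

theorem IsOf.linear {γ : V ≃ᵃ[ℂ] V} {A : Matrix (Fin 2) (Fin 2) ℤ} (h : IsOf γ A) (w : V) :
    γ.linear w = act A w := by
  obtain ⟨_, b, _, hγ⟩ := h
  have h1 := γ.toAffineMap.linearMap_vsub w 0
  have h2 : γ.linear w = γ w - γ 0 := by
    simpa using h1
  rw [h2, hγ, hγ, map_zero]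
  abel

end Q276.SYZ
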