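import Pool.Agent.Q276.SYZ.Ex

/-!
# The quotient is primitive symplectic
-/

set_option autoImplicit false

namespace Q276.SYZ

open Pool.Agent.W594.SYZ2 Matrix

/-- The linear automorphism given by an orthogonal integral matrix. -/
def actE (A : Matrix (Fin 2) (Fin 2) ℤ) (h : A * A.transpose = 1) : V ≃ₗ[ℂ] V :=
  LinearEquiv.ofLinearMap (act A) (act A.transpose)
    (by
      apply LinearMap.ext
      intro v
      rw [LinearMap.comp_apply, ← act_mul, h, act_one]
      rfl)
    (by
      apply LinearMap.ext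
      intro v
      rw [LinearMap.comp_apply, ← act_mul, orth_transpose h, act_one]
      rfl)

/-- The transformation `v ↦ A v + τ_A`. -/
noncomputable def gam (A : Matrix (Fin 2) (Fin 2) ℤ) (h : A * A.transpose = 1) : V ≃ᵃ[ℂ] V :=
  (actE A h).toAffineEquiv.trans (AffineEquiv.constVAdd ℂ V (tau A))

theorem isOf_gam (A : Matrix (Fin 2) (Fin 2) ℤ) (h : A * A.transpose = 1) : IsOf (gam A h) A :=
  ⟨h, 0, Lam.zero_mem, fun v => by
    rw [add_zero, add_comm]
    rfl⟩

theorem gam_mem (A : Matrix (Fin 2) (Fin 2) ℤ) (h : A * A.transpose = 1) : gam A h ∈ Gam :=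
  ⟨A, isOf_gam A h⟩

theorem eq_one_of_act {A : Matrix (Fin 2) (Fin 2) ℤ} (h : ∀ w : V, act A w = w) : A = 1 := by
  ext i k
  have h1 := congrFun (congrFun (h (fun _ l => if l = k then 1 else 0)) 0) i
  rw [act_apply] at h1
  have h2 : ((A i k : ℤ) : ℂ) = if i = k then 1 else 0 := by
    rw [← h1]
    fin_cases k <;> simp
  rw [Matrix.one_apply]
  split_ifs at h2 ⊢ <;> exact_mod_cast h2

theorem latt_eq : latt Gam = Lam := by
  ext b
  rw [mem_latt]
  constructor
  · rintro ⟨A, hA, c, hc, h⟩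
    have h1 : A = 1 := by
      apply eq_one_of_act
      intro w
      have h2 := h w
      have h3 := h 0
      change b + w = _ at h2
      change b + 0 = _ at h3
      have : act A w = (b + w) - (b + 0) := by
        rw [h2, h3, (act A).map_zero]
        abel
      rw [this]
      abel
    subst h1
    have h3 := h 0
    rw [(act 1).map_zero, tau_of_one Matrix.det_one, zero_add, zero_add] at h3
    change b + 0 = c at h3
    rw [add_zero] at h3
    rwa [h3]
  · intro hb
    refine ⟨1, by simp, b, hb, fun v => ?_⟩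
    rw [act_one, tau_of_one Matrix.det_one, add_zero, add_comm]
    rfl

theorem gauss_small {z : ℂ} (hz : IsGauss z) (h : ‖z‖ < 1) : z = 0 := by
  obtain ⟨m, n, rfl⟩ := hz
  have h1 := (Complex.abs_re_le_norm ((m : ℂ) + n * Complex.I)).trans_lt h
  have h2 := (Complex.abs_im_le_norm ((m : ℂ) + n * Complex.I)).trans_lt h
  simp only [Complex.add_re, Complex.intCast_re, Complex.mul_re, Complex.I_re, mul_zero,
    Complex.intCast_im, Complex.I_im, mul_one, sub_self, add_zero, Complex.add_im, Complex.mul_im,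
    zero_add] at h1 h2
  have h3 : |m| < 1 := by exact_mod_cast h1
  have h4 : |n| < 1 := by exact_mod_cast h2
  rw [Int.abs_lt_one_iff] at h3 h4
  rw [h3, h4]
  simp

theorem disc : DiscreteTopology (latt Gam) := by
  rw [latt_eq]
  refine discreteTopology_iff_isOpen_singleton_zero.mpr ⟨Metric.ball 0 1, Metric.isOpen_ball, ?_⟩
  ext ⟨v, hv⟩
  simp only [Set.mem_preimage, mem_ball_zero_iff, Set.mem_singleton_iff]
  constructor
  · intro h
    apply Subtype.ext
    funext j i
    exact gauss_small (hv.1 j i) ((norm_le_pi_norm _ i).trans_lt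
      ((norm_le_pi_norm v j).trans_lt h))
  · intro h
    have h' : v = 0 := congrArg Subtype.val h
    rw [h']
    simp

theorem single_mem (j i : Fin 2) (z : ℂ) (hz : IsGauss z) :
    (Pi.single j (Pi.single i (2 * z)) : V) ∈ Lam := by
  refine ⟨?_, ?_⟩
  · intro j' i'
    have h2 : IsGauss (2 * z) := by
      have := hz.intMul 2
      exact_mod_cast this
    by_cases hj : j' = j
    · subst hj
      by_cases hi : i' = i
      · subst hi
        simpa using h2
      · simpa [hi] using isGauss_zero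
    · simpa [hj] using isGauss_zero
  · fin_cases j
    · exact ⟨0, isGauss_zero, by simp⟩
    · fin_cases i
      · exact ⟨z, hz, by simp⟩
      · exact ⟨-z, hz.neg, by simp⟩

theorem span_top : Submodule.span ℝ (latt Gam : Set V) = ⊤ := by
  rw [latt_eq, Submodule.eq_top_iff']
  intro v
  have h1 : v = ∑ j, ∑ i, (((v j i).re / 2) • (Pi.single j (Pi.single i (2 * 1)) : V)
      + ((v j i).im / 2) • (Pi.single j (Pi.single i (2 * Complex.I)) : V)) := by
    funext j i
    simp only [Fin.sum_univ_two, Pi.add_apply, Pi.smul_apply]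
    fin_cases j <;> fin_cases i <;> apply Complex.ext <;> simp
  rw [h1]
  refine Submodule.sum_mem _ fun j _ => Submodule.sum_mem _ fun i _ => Submodule.add_mem _ ?_ ?_
  · exact Submodule.smul_mem _ _ (Submodule.subset_span (single_mem j i 1 isGauss_one))
  · exact Submodule.smul_mem _ _ (Submodule.subset_span
      (single_mem j i Complex.I ⟨0, 1, by simp⟩))

theorem orth_finite : {A : Matrix (Fin 2) (Fin 2) ℤ | A * A.transpose = 1}.Finite := by
  have h : {A : Matrix (Fin 2) (Fin 2) ℤ | A * A.transpose = 1} ⊆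
      (fun p : Matrix (Fin 2) (Fin 2) ℤ => p) '' ({!![1, 0; 0, 1], !![1, 0; 0, -1], !![-1, 0; 0, 1],
        !![-1, 0; 0, -1], !![0, 1; 1, 0], !![0, 1; -1, 0], !![0, -1; 1, 0], !![0, -1; -1, 0]} :
        Set (Matrix (Fin 2) (Fin 2) ℤ)) := by
    intro A hA
    obtain ⟨e, f, he, hf, h | h⟩ := orth_cases hA <;> rcases he with rfl | rfl <;>
      rcases hf with rfl | rfl <;> simp [h]
  exact ((Set.toFinite _).image _).subset h

theorem torusQuotient : IsTorusQuotient Gam where
  discrete := disc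
  span_top := span_top
  finite_linear := by
    have h : {A : V ≃ₗ[ℂ] V | ∃ γ ∈ Gam, γ.linear = A} ⊆
        (fun B : V ≃ₗ[ℂ] V => (B : V →ₗ[ℂ] V)) ⁻¹'
          (act '' {A : Matrix (Fin 2) (Fin 2) ℤ | A * A.transpose = 1}) := by
      rintro _ ⟨γ, ⟨A, hA⟩, rfl⟩
      refine ⟨A, hA.1, ?_⟩
      apply LinearMap.ext
      intro w
      exact (hA.linear w).symm
    exact ((orth_finite.image _).preimage
      (Set.injOn_of_injective LinearEquiv.toLinearMap_injective)).subset h

theorem neg_orth : (-1 : Matrix (Fin 2) (Fin 2) ℤ) * (-1 : Matrix (Fin 2) (Fin 2) ℤ).transpose = 1 := by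
  simp

theorem act_neg_one (w : V) : act (-1) w = -w := by
  funext j i
  fin_cases i
  · simp [act_apply]
  · simp [act_apply]

theorem h01 (ℓ : V →ₛₗ[starRingEnd ℂ] ℂ) (h : ∀ γ ∈ Gam, ∀ w, ℓ (γ.linear w) = ℓ w) : ℓ = 0 := by
  apply LinearMap.ext
  intro w
  have h1 := h (gam (-1) neg_orth) (gam_mem _ _) w
  rw [(isOf_gam _ _).linear, act_neg_one, map_neg] at h1
  exact self_eq_neg.1 h1.symm

theorem h10 (ω : V → V [⋀^Fin 1]→L[ℂ] ℂ) (hω : IsForm Gam 1 ω) : ω = 0 := by
  funext v
  rw [TQ.form_const torusQuotient hω v 0]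
  ext w
  have h1 := TQ.form_inv torusQuotient hω (gam (-1) neg_orth) (gam_mem _ _) w
  have h2 : (fun i => (gam (-1) neg_orth).linear (w i)) = fun i => (-1 : ℂ) • w i := by
    funext i
    rw [(isOf_gam _ _).linear, act_neg_one, neg_one_smul]
  rw [h2, (ω 0).map_smul_univ (fun _ => (-1 : ℂ)) w] at h1
  simp at h1
  have h3 : (ω 0) w = 0 := self_eq_neg.1 h1.symm
  simpa using h3

/-- the pair of coordinates number `i` -/
def pr (i : Fin 2) : V →ₗ[ℂ] (Fin 2 → ℂ) where
  toFun v := fun j => v j i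
  map_add' _ _ := rfl
  map_smul' _ _ := rfl

/-- `dx_1 ∧ dy_1 + dx_2 ∧ dy_2` -/
noncomputable def sig0 : V [⋀^Fin 2]→ₗ[ℂ] ℂ :=
  (Matrix.detRowAlternating : (Fin 2 → ℂ) [⋀^Fin 2]→ₗ[ℂ] ℂ).compLinearMap (pr 0) +
    (Matrix.detRowAlternating : (Fin 2 → ℂ) [⋀^Fin 2]→ₗ[ℂ] ℂ).compLinearMap (pr 1)

theorem sig0_apply (w : Fin 2 → V) : sig0 w =
    (w 0 0 0 * w 1 1 0 - w 0 1 0 * w 1 0 0) + (w 0 0 1 * w 1 1 1 - w 0 1 1 * w 1 0 1) := by
  change Matrix.det (fun k => pr 0 (w k)) + Matrix.det (fun k => pr 1 (w k)) = _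
  rw [Matrix.det_fin_two, Matrix.det_fin_two]
  rfl

/-- The symplectic form. -/
noncomputable def sig : V [⋀^Fin 2]→L[ℂ] ℂ :=
  { sig0 with
    cont := by
      have : (fun w : Fin 2 → V => sig0 w) = fun w => (w 0 0 0 * w 1 1 0 - w 0 1 0 * w 1 0 0) +
          (w 0 0 1 * w 1 1 1 - w 0 1 1 * w 1 0 1) := funext sig0_apply
      change Continuous (fun w : Fin 2 → V => sig0 w)
      rw [this]
      fun_prop }

theorem sig_apply (w : Fin 2 → V) : sig w =
    (w 0 0 0 * w 1 1 0 - w 0 1 0 * w 1 0 0) + (w 0 0 1 * w 1 1 1 - w 0 1 1 * w 1 0 1) :=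
  sig0_apply w

theorem sig_inv {A : Matrix (Fin 2) (Fin 2) ℤ} (h : A * A.transpose = 1) (w : Fin 2 → V) :
    sig (fun i => act A (w i)) = sig w := by
  rw [sig_apply, sig_apply]
  simp only [act_apply]
  obtain ⟨e, f, he, hf, hA | hA⟩ := orth_cases h <;> rcases he with rfl | rfl <;>
    rcases hf with rfl | rfl <;> simp [hA] <;> ring

theorem sig_form : IsForm Gam 2 (fun _ => sig) where
  holo := differentiable_const _
  inv := by
    rintro γ ⟨A, hA⟩ v w
    have h : (fun i => γ.linear (w i)) = fun i => act A (w i) := by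
      funext i
      exact hA.linear _
    change sig (fun i => γ.linear (w i)) = sig w
    rw [h, sig_inv hA.1]

theorem sig_nondeg (x : V) (h : ∀ y, sig ![x, y] = 0) : x = 0 := by
  have h1 := h (fun j i => if j = 1 then if i = 0 then 1 else 0 else 0)
  have h2 := h (fun j i => if j = 1 then if i = 1 then 1 else 0 else 0)
  have h3 := h (fun j i => if j = 0 then if i = 0 then 1 else 0 else 0)
  have h4 := h (fun j i => if j = 0 then if i = 1 then 1 else 0 else 0)
  rw [sig_apply] at h1 h2 h3 h4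
  simp at h1 h2 h3 h4
  funext j i
  fin_cases j <;> fin_cases i
  · exact h1
  · exact h2
  · exact h3
  · exact h4

/-- basis vector -/
noncomputable def E (j i : Fin 2) : V := Pi.single j (Pi.single i 1)

theorem diag_orth : (!![1, 0; 0, -1] : Matrix (Fin 2) (Fin 2) ℤ) *
    (!![1, 0; 0, -1] : Matrix (Fin 2) (Fin 2) ℤ).transpose = 1 := by
  decide

theorem swap_orth : (!![0, 1; 1, 0] : Matrix (Fin 2) (Fin 2) ℤ) *
    (!![0, 1; 1, 0] : Matrix (Fin 2) (Fin 2) ℤ).transpose = 1 := by
  decide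

theorem diag_E0 (j : Fin 2) : act !![1, 0; 0, -1] (E j 0) = E j 0 := by
  funext j' i'
  rw [act_apply]
  fin_cases j <;> fin_cases j' <;> fin_cases i' <;> simp [E]

theorem diag_E1 (j : Fin 2) : act !![1, 0; 0, -1] (E j 1) = (-1 : ℂ) • E j 1 := by
  funext j' i'
  rw [act_apply]
  fin_cases j <;> fin_cases j' <;> fin_cases i' <;> simp [E]

theorem swap_E0 (j : Fin 2) : act !![0, 1; 1, 0] (E j 0) = E j 1 := by
  funext j' i'
  rw [act_apply]
  fin_cases j <;> fin_cases j' <;> fin_cases i' <;> simp [E]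

theorem unique (ω : V → V [⋀^Fin 2]→L[ℂ] ℂ) (hω : IsForm Gam 2 ω) :
    ∃ c : ℂ, ω = c • (fun _ => sig) := by
  have hinv : ∀ (A : Matrix (Fin 2) (Fin 2) ℤ) (h : A * A.transpose = 1) (x y : V),
      TQ.bil (ω 0) (act A x) (act A y) = TQ.bil (ω 0) x y := by
    intro A h x y
    rw [TQ.bil_apply, TQ.bil_apply, ← TQ.form_inv torusQuotient hω (gam A h) (gam_mem _ _) ![x, y]]
    congr 1
    funext i
    rw [(isOf_gam A h).linear]
    fin_cases i <;> rfl
  have hsw := TQ.bil_swap (ω 0)
  have hz : ∀ z, TQ.bil (ω 0) z z = 0 := fun z => by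
    have := hsw z z
    exact self_eq_neg.1 this
  have h01 : ∀ j j', TQ.bil (ω 0) (E j 0) (E j' 1) = 0 := by
    intro j j'
    have h1 := hinv _ diag_orth (E j 0) (E j' 1)
    rw [diag_E0, diag_E1, map_smul, smul_eq_mul, neg_one_mul] at h1
    exact self_eq_neg.1 h1.symm
  have h10 : ∀ j j', TQ.bil (ω 0) (E j 1) (E j' 0) = 0 := by
    intro j j'
    rw [hsw, h01, neg_zero]
  have h11 : ∀ j j', TQ.bil (ω 0) (E j 1) (E j' 1) = TQ.bil (ω 0) (E j 0) (E j' 0) := by
    intro j j'
    have h1 := hinv _ swap_orth (E j 0) (E j' 0)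
    rwa [swap_E0, swap_E0] at h1
  refine ⟨TQ.bil (ω 0) (E 0 0) (E 1 0), ?_⟩
  set c := TQ.bil (ω 0) (E 0 0) (E 1 0) with hc
  have hb : ∀ (j i j' i' : Fin 2), TQ.bil (ω 0) (E j i) (E j' i') =
      c * TQ.bil sig (E j i) (E j' i') := by
    intro j i j' i'
    rw [TQ.bil_apply sig, sig_apply]
    fin_cases i <;> fin_cases i'
    · change TQ.bil (ω 0) (E j 0) (E j' 0) = _
      fin_cases j <;> fin_cases j'
      · change TQ.bil (ω 0) (E 0 0) (E 0 0) = _
        rw [hz]
        simp [E]
      · simp [E, hc]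
      · change TQ.bil (ω 0) (E 1 0) (E 0 0) = _
        rw [hsw]
        simp [E, hc]
      · change TQ.bil (ω 0) (E 1 0) (E 1 0) = _
        rw [hz]
        simp [E]
    · change TQ.bil (ω 0) (E j 0) (E j' 1) = _
      rw [h01]
      fin_cases j <;> fin_cases j' <;> simp [E]
    · change TQ.bil (ω 0) (E j 1) (E j' 0) = _
      rw [h10]
      fin_cases j <;> fin_cases j' <;> simp [E]
    · change TQ.bil (ω 0) (E j 1) (E j' 1) = _
      rw [h11]
      fin_cases j <;> fin_cases j'
      · change TQ.bil (ω 0) (E 0 0) (E 0 0) = _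
        rw [hz]
        simp [E]
      · simp [E, hc]
      · change TQ.bil (ω 0) (E 1 0) (E 0 0) = _
        rw [hsw]
        simp [E, hc]
      · change TQ.bil (ω 0) (E 1 0) (E 1 0) = _
        rw [hz]
        simp [E]
  have hlin : TQ.bil (ω 0) = c • TQ.bil sig := by
    apply LinearMap.pi_ext'
    intro j
    apply LinearMap.pi_ext'
    intro i
    apply LinearMap.ext_ring
    apply LinearMap.pi_ext'
    intro j'
    apply LinearMap.pi_ext'
    intro i'
    apply LinearMap.ext_ring
    exact hb j i j' i'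
  funext v
  rw [TQ.form_const torusQuotient hω v 0]
  ext w
  have h := LinearMap.congr_fun (LinearMap.congr_fun hlin (w 0)) (w 1)
  have hw : ![w 0, w 1] = w := by
    funext i
    fin_cases i <;> rfl
  rw [TQ.bil_apply, hw] at h
  rw [h]
  change c * TQ.bil sig (w 0) (w 1) = c * sig w
  rw [TQ.bil_apply, hw]

theorem primitive : IsPrimitiveSymplectic Gam where
  torus := torusQuotient
  h01 := h01
  h10 := h10
  symp := ⟨fun _ => sig, sig_form, fun _ => sig_nondeg, unique⟩

end Q276.SYZ
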